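import Pool.Agent.Helper10.AB.GoalsF2

/-! Packet EX1 of project AB: radial integration. -/

open scoped BigOperators
open Set

namespace Pool.Agent.Helper79.AB

open Pool.Agent.Helper10.AB

/-- one-dimensional estimate with the explicit boundary function -/
lemma rad1 (a m C1 K : ℝ) (hm : m ≠ 1)
    (f : ℝ → ℂ) (f' : ℝ → ℂ) (ρ : ℝ) (hρ : a / 2 ≤ ρ) (hρa : ρ < a)
    (hf : ∀ r ∈ Set.Icc (a / 2) ρ, HasDerivAt f (f' r) r)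
    (hb : ∀ r ∈ Set.Icc (a / 2) ρ, ‖f' r‖ ≤ K * (a - r) ^ (-m))
    (h0 : ‖f (a / 2)‖ ≤ C1) :
    ‖f ρ‖ ≤ C1 + K * (((a - ρ) ^ (1 - m) - (a / 2) ^ (1 - m)) / (m - 1)) := by
  have hm1 : m - 1 ≠ 0 := sub_ne_zero.mpr hm
  have hBd : ∀ r ∈ Set.Icc (a / 2) ρ,
      HasDerivAt (fun r : ℝ => C1 + K * (((a - r) ^ (1 - m) - (a / 2) ^ (1 - m)) / (m - 1)))
        (K * (a - r) ^ (-m)) r := by
    intro r hr
    have hpos : 0 < a - r := by linarith [hr.2]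
    have h1 : HasDerivAt (fun r : ℝ => a - r) (-1) r := by
      simpa using (hasDerivAt_id r).const_sub a
    have h2 := h1.rpow_const (p := 1 - m) (Or.inl hpos.ne')
    have h3 := (((h2.sub_const ((a / 2) ^ (1 - m))).div_const (m - 1)).const_mul K).const_add C1
    have e : (1 - m - 1 : ℝ) = -m := by ring
    rw [e] at h3
    have e2 : K * (-1 * (1 - m) * (a - r) ^ (-m) / (m - 1)) = K * (a - r) ^ (-m) := by
      field_simp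
      ring
    rw [e2] at h3
    exact h3
  have hmain := image_norm_le_of_norm_deriv_right_le_deriv_boundary' (a := a / 2) (b := ρ)
    (f := f) (f' := f')
    (B := fun r : ℝ => C1 + K * (((a - r) ^ (1 - m) - (a / 2) ^ (1 - m)) / (m - 1)))
    (B' := fun r => K * (a - r) ^ (-m))
    (fun r hr => (hf r hr).continuousAt.continuousWithinAt)
    (fun r hr => (hf r ⟨hr.1, hr.2.le⟩).hasDerivWithinAt)
    (by
      have e : (a - a / 2 : ℝ) = a / 2 := by ring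
      simp only [e, sub_self, zero_div, mul_zero, add_zero]
      exact h0)
    (fun r hr => (hBd r hr).continuousAt.continuousWithinAt)
    (fun r hr => (hBd r ⟨hr.1, hr.2.le⟩).hasDerivWithinAt)
    (fun r hr => hb r ⟨hr.1, hr.2.le⟩)
  exact hmain ⟨hρ, le_rfl⟩

/-- the radial step -/
lemma rad2 (a T m C1 K0 : ℝ) (ha : 0 < a) (hm : m ≠ 1) (hm0 : 0 ≤ m) (hK : 0 ≤ K0)
    (f : (Fin 4 → ℝ) × (Fin 4 → ℝ) → ℂ)
    (D : (Fin 4 → ℝ) × (Fin 4 → ℝ) → ((Fin 4 → ℝ) × (Fin 4 → ℝ)) →L[ℝ] ℂ)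
    (hf : ∀ q, (∑ j, q.1 j ^ 2) < a ^ 2 → HasFDerivAt f (D q) q)
    (hD : ∀ q, (∑ j, q.1 j ^ 2) < a ^ 2 → ‖q.2‖ ≤ T →
      ‖D q‖ ≤ K0 * (a ^ 2 - ∑ j, q.1 j ^ 2) ^ (-m))
    (h0 : ∀ q, (∑ j, q.1 j ^ 2) ≤ (a / 2) ^ 2 → ‖q.2‖ ≤ T → ‖f q‖ ≤ C1)
    (q : (Fin 4 → ℝ) × (Fin 4 → ℝ)) (hq : (∑ j, q.1 j ^ 2) < a ^ 2) (hqT : ‖q.2‖ ≤ T)
    (hqa : (a / 2) ^ 2 ≤ ∑ j, q.1 j ^ 2) :
    ‖f q‖ ≤ C1 + (K0 * a ^ (-m)) * (((a - Real.sqrt (∑ j, q.1 j ^ 2)) ^ (1 - m) -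
      (a / 2) ^ (1 - m)) / (m - 1)) := by
  set ρ : ℝ := Real.sqrt (∑ j, q.1 j ^ 2) with hρdef
  have hsum0 : 0 ≤ ∑ j, q.1 j ^ 2 := Finset.sum_nonneg (fun j _ => sq_nonneg _)
  have hρ2 : ρ ^ 2 = ∑ j, q.1 j ^ 2 := Real.sq_sqrt hsum0
  have hρ : a / 2 ≤ ρ := Real.le_sqrt_of_sq_le hqa
  have hρpos : 0 < ρ := lt_of_lt_of_le (by positivity) hρ
  have hρa : ρ < a := by
    rw [hρdef]
    exact (Real.sqrt_lt' ha).mpr hq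
  set ω : Fin 4 → ℝ := fun j => q.1 j / ρ with hω
  have hω2 : ∑ j, ω j ^ 2 = 1 := by
    simp only [hω, div_pow]
    rw [← Finset.sum_div, ← hρ2]
    field_simp
  have hωn : ‖ω‖ ≤ 1 := by
    rw [pi_norm_le_iff_of_nonneg zero_le_one]
    intro j
    rw [Real.norm_eq_abs]
    have : ω j ^ 2 ≤ 1 := by
      rw [← hω2]
      exact Finset.single_le_sum (f := fun j => ω j ^ 2) (fun i _ => sq_nonneg _)
        (Finset.mem_univ j)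
    exact (sq_le_one_iff_abs_le_one _).mp this
  have hsumr : ∀ r : ℝ, ∑ j, (r * ω j) ^ 2 = r ^ 2 := by
    intro r
    simp only [mul_pow]
    rw [← Finset.mul_sum, hω2, mul_one]
  -- the curve
  let γ : ℝ → (Fin 4 → ℝ) × (Fin 4 → ℝ) := fun r => (r • ω, q.2)
  have hγsum : ∀ r : ℝ, ∑ j, (γ r).1 j ^ 2 = r ^ 2 := by
    intro r
    have := hsumr r
    simpa [γ] using this
  have hγd : ∀ r : ℝ, HasDerivAt γ (ω, (0 : Fin 4 → ℝ)) r := by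
    intro r
    have h1 : HasDerivAt (fun r : ℝ => r • ω) ω r := by
      simpa using (hasDerivAt_id r).smul_const ω
    exact h1.prodMk (hasDerivAt_const r q.2)
  have hγρ : γ ρ = q := by
    refine Prod.ext ?_ rfl
    funext j
    simp only [γ, hω, Pi.smul_apply, smul_eq_mul]
    field_simp
  have hin : ∀ r ∈ Set.Icc (a / 2) ρ, (∑ j, (γ r).1 j ^ 2) < a ^ 2 := by
    intro r hr
    rw [hγsum]
    have : 0 < r := lt_of_lt_of_le (by positivity) hr.1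
    exact pow_lt_pow_left₀ (lt_of_le_of_lt hr.2 hρa) this.le (by norm_num)
  have hvec : ‖((ω, (0 : Fin 4 → ℝ)) : (Fin 4 → ℝ) × (Fin 4 → ℝ))‖ ≤ 1 := by
    rw [Prod.norm_def]
    simp [hωn]
  have hres := rad1 a m C1 (K0 * a ^ (-m)) hm (fun r => f (γ r))
    (fun r => D (γ r) (ω, (0 : Fin 4 → ℝ))) ρ hρ hρa
    (fun r hr => (hf (γ r) (hin r hr)).comp_hasDerivAt r (hγd r))
    (fun r hr => by
      have hr0 : 0 < r := lt_of_lt_of_le (by positivity) hr.1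
      have har : 0 < a - r := by linarith [hr.2]
      have h1 := hD (γ r) (hin r hr) hqT
      rw [hγsum] at h1
      have h2 : ‖D (γ r) (ω, (0 : Fin 4 → ℝ))‖ ≤ ‖D (γ r)‖ := by
        calc ‖D (γ r) (ω, (0 : Fin 4 → ℝ))‖ ≤ ‖D (γ r)‖ * ‖((ω, (0 : Fin 4 → ℝ)) :
              (Fin 4 → ℝ) × (Fin 4 → ℝ))‖ := (D (γ r)).le_opNorm _
          _ ≤ ‖D (γ r)‖ * 1 := by gcongr
          _ = ‖D (γ r)‖ := mul_one _
      have h3 : (a ^ 2 - r ^ 2) ^ (-m) ≤ (a * (a - r)) ^ (-m) := by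
        apply Real.rpow_le_rpow_of_nonpos (by positivity)
        · nlinarith
        · linarith
      rw [Real.mul_rpow ha.le har.le] at h3
      calc ‖D (γ r) (ω, (0 : Fin 4 → ℝ))‖ ≤ ‖D (γ r)‖ := h2
        _ ≤ K0 * (a ^ 2 - r ^ 2) ^ (-m) := h1
        _ ≤ K0 * (a ^ (-m) * (a - r) ^ (-m)) := by gcongr
        _ = K0 * a ^ (-m) * (a - r) ^ (-m) := by ring)
    (h0 (γ (a / 2)) (by rw [hγsum]) hqT)
  simpa only [hγρ] using hres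

/-- the bound `B_m` -/
def Bd (a T m : ℝ) (f : (Fin 4 → ℝ) × (Fin 4 → ℝ) → ℂ) : Prop :=
  ∃ C : ℝ, 0 ≤ C ∧ ∀ q, (∑ j, q.1 j ^ 2) < a ^ 2 → ‖q.2‖ ≤ T →
    ‖f q‖ ≤ C * (a ^ 2 - ∑ j, q.1 j ^ 2) ^ (-m)

lemma bd_inner (a T m : ℝ) (ha : 0 < a) (hm0 : 0 ≤ m)
    (f : (Fin 4 → ℝ) × (Fin 4 → ℝ) → ℂ) (h : Bd a T m f) :
    ∃ C1 : ℝ, 0 ≤ C1 ∧ ∀ q, (∑ j, q.1 j ^ 2) ≤ (a / 2) ^ 2 → ‖q.2‖ ≤ T → ‖f q‖ ≤ C1 := by
  obtain ⟨C, hC0, hC⟩ := h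
  refine ⟨C * (3 * a ^ 2 / 4) ^ (-m), by positivity, ?_⟩
  intro q hq hT
  have hlt : (∑ j, q.1 j ^ 2) < a ^ 2 := by nlinarith
  have h1 := hC q hlt hT
  refine h1.trans ?_
  gcongr ?_ * ?_
  apply Real.rpow_le_rpow_of_nonpos (by positivity)
  · nlinarith
  · linarith

lemma bd_D (a T m : ℝ) {ι : Type} (u : ι → (Fin 4 → ℝ) × (Fin 4 → ℝ) → ℂ)
    (D : (Fin 4 → ℝ) × (Fin 4 → ℝ) → ((Fin 4 → ℝ) × (Fin 4 → ℝ)) →L[ℝ] ℂ)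
    (F : Finset ι) (M : ℝ)
    (hM : ∀ q, (∑ j, q.1 j ^ 2) < a ^ 2 → ‖q.2‖ ≤ T → ‖D q‖ ≤ M * ∑ j ∈ F, ‖u j q‖)
    (h : ∀ i, Bd a T m (u i)) :
    ∃ K0 : ℝ, 0 ≤ K0 ∧ ∀ q, (∑ j, q.1 j ^ 2) < a ^ 2 → ‖q.2‖ ≤ T →
      ‖D q‖ ≤ K0 * (a ^ 2 - ∑ j, q.1 j ^ 2) ^ (-m) := by
  choose C hC0 hC using h
  refine ⟨|M| * ∑ j ∈ F, C j, mul_nonneg (abs_nonneg _) (Finset.sum_nonneg fun j _ => hC0 j), ?_⟩
  intro q hq hT
  calc ‖D q‖ ≤ M * ∑ j ∈ F, ‖u j q‖ := hM q hq hT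
    _ ≤ |M| * ∑ j ∈ F, ‖u j q‖ := by
        gcongr
        exact le_abs_self M
    _ ≤ |M| * ∑ j ∈ F, C j * (a ^ 2 - ∑ j, q.1 j ^ 2) ^ (-m) := by
        gcongr with j hj
        exact hC j q hq hT
    _ = |M| * (∑ j ∈ F, C j) * (a ^ 2 - ∑ j, q.1 j ^ 2) ^ (-m) := by
        rw [← Finset.sum_mul, mul_assoc]

/-- step for `m > 1` -/
lemma step_gt (a T m : ℝ) (ha : 0 < a) (hm : 1 < m)
    {ι : Type} (u : ι → (Fin 4 → ℝ) × (Fin 4 → ℝ) → ℂ)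
    (D : ι → (Fin 4 → ℝ) × (Fin 4 → ℝ) → ((Fin 4 → ℝ) × (Fin 4 → ℝ)) →L[ℝ] ℂ)
    (hf : ∀ i q, (∑ j, q.1 j ^ 2) < a ^ 2 → HasFDerivAt (u i) (D i q) q)
    (hM : ∀ i, ∃ F : Finset ι, ∃ M : ℝ, ∀ q, (∑ j, q.1 j ^ 2) < a ^ 2 → ‖q.2‖ ≤ T →
      ‖D i q‖ ≤ M * ∑ j ∈ F, ‖u j q‖)
    (h : ∀ i, Bd a T m (u i)) : ∀ i, Bd a T (m - 1) (u i) := by
  intro i
  obtain ⟨F, M, hM⟩ := hM i
  obtain ⟨C1, hC10, hC1⟩ := bd_inner a T m ha (by linarith) (u i) (h i)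
  obtain ⟨K0, hK0, hD⟩ := bd_D a T m u (D i) F M hM h
  have hm1 : 0 < m - 1 := by linarith
  refine ⟨C1 * (a ^ 2) ^ (m - 1) + K0 * a ^ (-m) * ((2 * a) ^ (m - 1) / (m - 1)),
    by positivity, ?_⟩
  intro q hq hT
  have hsum0 : 0 ≤ ∑ j, q.1 j ^ 2 := Finset.sum_nonneg (fun j _ => sq_nonneg _)
  set W : ℝ := a ^ 2 - ∑ j, q.1 j ^ 2 with hW
  have hWpos : 0 < W := by rw [hW]; linarith
  have hWle : W ≤ a ^ 2 := by rw [hW]; linarith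
  have hone : C1 ≤ C1 * (a ^ 2) ^ (m - 1) * W ^ (-(m - 1)) := by
    have h1 : W ^ (m - 1) ≤ (a ^ 2) ^ (m - 1) := Real.rpow_le_rpow hWpos.le hWle hm1.le
    have h2 : W ^ (m - 1) * W ^ (-(m - 1)) = 1 := by
      rw [← Real.rpow_add hWpos, add_neg_cancel, Real.rpow_zero]
    have h3 : 0 < W ^ (-(m - 1)) := Real.rpow_pos_of_pos hWpos _
    have h4 : 1 ≤ (a ^ 2) ^ (m - 1) * W ^ (-(m - 1)) := by
      calc (1 : ℝ) = W ^ (m - 1) * W ^ (-(m - 1)) := h2.symm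
        _ ≤ (a ^ 2) ^ (m - 1) * W ^ (-(m - 1)) := by gcongr
    nlinarith
  have hsec : 0 ≤ K0 * a ^ (-m) * ((2 * a) ^ (m - 1) / (m - 1)) * W ^ (-(m - 1)) := by positivity
  rw [add_mul]
  rcases le_total (∑ j, q.1 j ^ 2) ((a / 2) ^ 2) with hle | hle
  · have := hC1 q hle hT
    linarith
  · have h1 := rad2 a T m C1 K0 ha hm.ne' (by linarith) hK0 (u i) (D i) (hf i) hD hC1 q hq hT hle
    set ρ : ℝ := Real.sqrt (∑ j, q.1 j ^ 2) with hρdef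
    have hρ2 : ρ ^ 2 = ∑ j, q.1 j ^ 2 := Real.sq_sqrt hsum0
    have hρ0 : 0 ≤ ρ := Real.sqrt_nonneg _
    have hρa : ρ < a := by
      rw [hρdef]
      exact (Real.sqrt_lt' ha).mpr hq
    have har : 0 < a - ρ := by linarith
    have hW2 : W / (2 * a) ≤ a - ρ := by
      rw [div_le_iff₀ (by positivity), hW, ← hρ2]
      nlinarith
    have h2 : (a - ρ) ^ (1 - m) ≤ (2 * a) ^ (m - 1) * W ^ (-(m - 1)) := by
      calc (a - ρ) ^ (1 - m) ≤ (W / (2 * a)) ^ (1 - m) :=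
            Real.rpow_le_rpow_of_nonpos (by positivity) hW2 (by linarith)
        _ = W ^ (1 - m) / (2 * a) ^ (1 - m) := Real.div_rpow hWpos.le (by positivity) _
        _ = (2 * a) ^ (m - 1) * W ^ (-(m - 1)) := by
            rw [show (1 - m : ℝ) = -(m - 1) by ring, Real.rpow_neg (by positivity : (0:ℝ) ≤ 2 * a)]
            rw [div_inv_eq_mul, mul_comm]
    have h3 : ((a - ρ) ^ (1 - m) - (a / 2) ^ (1 - m)) / (m - 1) ≤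
        (2 * a) ^ (m - 1) / (m - 1) * W ^ (-(m - 1)) := by
      rw [div_mul_eq_mul_div]
      apply div_le_div_of_nonneg_right _ hm1.le
      have : 0 ≤ (a / 2) ^ (1 - m) := by positivity
      linarith
    have h4 : K0 * a ^ (-m) * (((a - ρ) ^ (1 - m) - (a / 2) ^ (1 - m)) / (m - 1)) ≤
        K0 * a ^ (-m) * ((2 * a) ^ (m - 1) / (m - 1) * W ^ (-(m - 1))) := by
      gcongr
    calc ‖u i q‖ ≤ _ := h1
      _ ≤ C1 * (a ^ 2) ^ (m - 1) * W ^ (-(m - 1)) +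
          K0 * a ^ (-m) * ((2 * a) ^ (m - 1) / (m - 1) * W ^ (-(m - 1))) := add_le_add hone h4
      _ = _ := by ring

/-- the last step -/
lemma step_lt (a T m : ℝ) (ha : 0 < a) (hm : m < 1) (hm0 : 0 ≤ m)
    {ι : Type} (u : ι → (Fin 4 → ℝ) × (Fin 4 → ℝ) → ℂ)
    (D : ι → (Fin 4 → ℝ) × (Fin 4 → ℝ) → ((Fin 4 → ℝ) × (Fin 4 → ℝ)) →L[ℝ] ℂ)
    (hf : ∀ i q, (∑ j, q.1 j ^ 2) < a ^ 2 → HasFDerivAt (u i) (D i q) q)
    (hM : ∀ i, ∃ F : Finset ι, ∃ M : ℝ, ∀ q, (∑ j, q.1 j ^ 2) < a ^ 2 → ‖q.2‖ ≤ T →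
      ‖D i q‖ ≤ M * ∑ j ∈ F, ‖u j q‖)
    (h : ∀ i, Bd a T m (u i)) (i : ι) :
    ∃ C : ℝ, ∀ q, (∑ j, q.1 j ^ 2) < a ^ 2 → ‖q.2‖ ≤ T → ‖u i q‖ ≤ C := by
  obtain ⟨F, M, hM⟩ := hM i
  obtain ⟨C1, hC10, hC1⟩ := bd_inner a T m ha hm0 (u i) (h i)
  obtain ⟨K0, hK0, hD⟩ := bd_D a T m u (D i) F M hM h
  have hm1 : 0 < 1 - m := by linarith
  have hsec : 0 ≤ K0 * a ^ (-m) * ((a / 2) ^ (1 - m) / (1 - m)) := by positivity
  refine ⟨C1 + K0 * a ^ (-m) * ((a / 2) ^ (1 - m) / (1 - m)), ?_⟩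
  intro q hq hT
  rcases le_total (∑ j, q.1 j ^ 2) ((a / 2) ^ 2) with hle | hle
  · have := hC1 q hle hT
    linarith
  · have h1 := rad2 a T m C1 K0 ha hm.ne hm0 hK0 (u i) (D i) (hf i) hD hC1 q hq hT hle
    have hρa : Real.sqrt (∑ j, q.1 j ^ 2) < a := (Real.sqrt_lt' ha).mpr hq
    have h2 : 0 ≤ (a - Real.sqrt (∑ j, q.1 j ^ 2)) ^ (1 - m) :=
      Real.rpow_nonneg (by linarith) _
    have h3 : ((a - Real.sqrt (∑ j, q.1 j ^ 2)) ^ (1 - m) - (a / 2) ^ (1 - m)) / (m - 1) ≤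
        (a / 2) ^ (1 - m) / (1 - m) := by
      have e : ((a - Real.sqrt (∑ j, q.1 j ^ 2)) ^ (1 - m) - (a / 2) ^ (1 - m)) / (m - 1) =
          ((a / 2) ^ (1 - m) - (a - Real.sqrt (∑ j, q.1 j ^ 2)) ^ (1 - m)) / (1 - m) := by
        rw [← neg_div_neg_eq]
        congr 1 <;> ring
      rw [e]
      apply div_le_div_of_nonneg_right _ hm1.le
      linarith
    have h4 : K0 * a ^ (-m) * (((a - Real.sqrt (∑ j, q.1 j ^ 2)) ^ (1 - m) -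
        (a / 2) ^ (1 - m)) / (m - 1)) ≤ K0 * a ^ (-m) * ((a / 2) ^ (1 - m) / (1 - m)) := by
      gcongr
    linarith

theorem ex1 : S_EX1 := by
  intro a ι u D ha hf hF hB i T
  have hM : ∀ i, ∃ F : Finset ι, ∃ M : ℝ, ∀ q, (∑ j, q.1 j ^ 2) < a ^ 2 → ‖q.2‖ ≤ T →
      ‖D i q‖ ≤ M * ∑ j ∈ F, ‖u j q‖ := by
    intro i
    obtain ⟨F, hF⟩ := hF i
    obtain ⟨M, hM⟩ := hF T
    exact ⟨F, M, hM⟩
  have h52 : ∀ i, Bd a T (5 / 2) (u i) := by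
    intro i
    obtain ⟨C, hC⟩ := hB i T
    refine ⟨Real.sqrt |C|, Real.sqrt_nonneg _, ?_⟩
    intro q hq hT
    have h1 := hC q hq hT
    set W : ℝ := a ^ 2 - ∑ j, q.1 j ^ 2 with hW
    have hWpos : 0 < W := by rw [hW]; linarith
    have h2 : ‖u i q‖ * W ^ (5 / 2 : ℝ) ≤ Real.sqrt |C| := by
      apply Real.le_sqrt_of_sq_le
      have e : (W ^ (5 / 2 : ℝ)) ^ 2 = W ^ 5 := by
        rw [← Real.rpow_natCast, ← Real.rpow_mul hWpos.le, ← Real.rpow_natCast]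
        norm_num
      rw [mul_pow, e]
      exact h1.trans (le_abs_self C)
    have h3 : W ^ (5 / 2 : ℝ) * W ^ (-(5 / 2) : ℝ) = 1 := by
      rw [← Real.rpow_add hWpos, add_neg_cancel, Real.rpow_zero]
    have h4 : 0 < W ^ (-(5 / 2) : ℝ) := Real.rpow_pos_of_pos hWpos _
    calc ‖u i q‖ = ‖u i q‖ * (W ^ (5 / 2 : ℝ) * W ^ (-(5 / 2) : ℝ)) := by rw [h3, mul_one]
      _ = ‖u i q‖ * W ^ (5 / 2 : ℝ) * W ^ (-(5 / 2) : ℝ) := by ring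
      _ ≤ Real.sqrt |C| * W ^ (-(5 / 2) : ℝ) := by gcongr
  have h32 : ∀ i, Bd a T (3 / 2) (u i) := by
    have := step_gt a T (5 / 2) ha (by norm_num) u D hf hM h52
    have e : (5 / 2 - 1 : ℝ) = 3 / 2 := by norm_num
    rwa [e] at this
  have h12 : ∀ i, Bd a T (1 / 2) (u i) := by
    have := step_gt a T (3 / 2) ha (by norm_num) u D hf hM h32
    have e : (3 / 2 - 1 : ℝ) = 1 / 2 := by norm_num
    rwa [e] at this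
  exact step_lt a T (1 / 2) ha (by norm_num) (by norm_num) u D hf hM h12 i

end Pool.Agent.Helper79.AB
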