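import Pool.Agent.Helper10.AB.GoalsF4

/-! Packet GEQ of project AB: equivariance of the `g_J`. -/

open MeasureTheory Set Filter Topology
open scoped ContDiff

noncomputable section

namespace Pool.Agent.Helper79.AB

open Pool.Agent.Helper10.AB Pool.Agent.Helper24.AB

/-- the translation by `2πi` -/
def tau0 : ℂ := 2 * Real.pi * Complex.I

lemma tau0_re : tau0.re = 0 := by simp [tau0]

lemma strip_add (a : ℝ) (c : ℂ) (hc : c.re = 0) : (fun w : ℂ => w + c) ⁻¹' strip a = strip a := by
  ext w
  simp [strip, hc]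

lemma meas_strip (a : ℝ) : MeasurableSet (strip a) := by
  have : IsOpen (strip a) := by
    have h : Continuous fun w : ℂ => |w.re| := Complex.continuous_re.abs
    exact isOpen_lt h continuous_const
  exact this.measurableSet

lemma mp_shift (a : ℝ) (c : ℂ) (hc : c.re = 0) :
    MeasurePreserving (fun w : ℂ => w + c) (muS a) (muS a) := by
  have h := (measurePreserving_add_right (volume : Measure ℂ) c).restrict_preimage (meas_strip a)
  rw [strip_add a c hc] at h
  exact h

theorem geq : S_UNQ → S_NRM → S_PHC → S_GEQ := by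
  intro hU hN hP a A δ₀ ρ₀ s p B hD F G J hF hJ hFe hG
  have ha : 0 < a := hD.prof.a_pos
  obtain ⟨-, hPhi, -, -⟩ := hN a A δ₀ ρ₀ s p B hD
  obtain ⟨hcont, -⟩ := hP a A δ₀ ρ₀ s p B hD
  have hPhi' : ∀ w, PhiJ a A s p J (w + tau0) = PhiJ a A s p (Jn J) w := fun w => hPhi J w
  have hJ' : Jn J 0 ≠ 0 ∨ Jn J 1 ≠ 0 := by
    by_contra hcon
    push Not at hcon
    have h0 : 2 * J 0 + J 1 = 0 := by simpa [Jn] using hcon.1
    have h1 : J 0 + J 1 = 0 := by simpa [Jn] using hcon.2
    rcases hJ with h | h
    · exact h (by linarith)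
    · exact h (by linarith)
  have hFm : MemLp (F (Jn J)) 2 (muS a) := by
    rcases hF (Jn J) with h | h
    · exact h
    · rcases hJ' with h' | h'
      · exact absurd h.1 h'
      · exact absurd h.2 h'
  obtain ⟨hGd, hGm, hGo⟩ := hG J hJ
  obtain ⟨hGd', hGm', hGo'⟩ := hG (Jn J) hJ'
  have hmaps : ∀ c : ℂ, c.re = 0 → ∀ w ∈ strip a, w + c ∈ strip a := by
    intro c hc w hw
    have := strip_add a c hc
    rw [← this] at hw
    exact hw
  have hshift : ∀ (c : ℂ), c.re = 0 → ∀ f : ℂ → ℂ, DifferentiableOn ℂ f (strip a) →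
      DifferentiableOn ℂ (fun w => f (w + c)) (strip a) := by
    intro c hc f hf
    refine DifferentiableOn.comp hf ?_ (hmaps c hc)
    exact (differentiable_id.add_const c).differentiableOn
  have hneg : (-tau0).re = 0 := by simp [tau0_re]
  refine hU a (PhiJ a A s p (Jn J)) (F (Jn J)) (fun w => G J (w + tau0)) (G (Jn J)) ha
    (hcont (Jn J)) hFm (hshift tau0 tau0_re _ hGd) hGd' ?_ hGm' ?_ (fun h h1 h2 => hGo' h h1 h2)
  · have h1 := hGm.comp_measurePreserving (mp_shift a tau0 tau0_re)
    have e : ((fun w => (Real.exp (-(PhiJ a A s p J w)) : ℂ) * G J w) ∘ fun w : ℂ => w + tau0) =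
        fun w => (Real.exp (-(PhiJ a A s p (Jn J) w)) : ℂ) * G J (w + tau0) := by
      funext w
      simp only [Function.comp_apply, hPhi']
    rw [e] at h1
    exact h1
  · intro h hhd hhm
    have hd' : DifferentiableOn ℂ (fun w => h (w + -tau0)) (strip a) := hshift (-tau0) hneg h hhd
    have hm' : MemLp (fun w => (Real.exp (-(PhiJ a A s p J w)) : ℂ) * h (w + -tau0)) 2
        (muS a) := by
      have h1 := hhm.comp_measurePreserving (mp_shift a (-tau0) hneg)
      have e : ((fun w => (Real.exp (-(PhiJ a A s p (Jn J) w)) : ℂ) * h w) ∘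
          fun w : ℂ => w + -tau0) =
          fun w => (Real.exp (-(PhiJ a A s p J w)) : ℂ) * h (w + -tau0) := by
        funext w
        simp only [Function.comp_apply]
        rw [← hPhi' (w + -tau0), neg_add_cancel_right]
      rw [e] at h1
      exact h1
    have h0 := hGo (fun w => h (w + -tau0)) hd' hm'
    have hemb : MeasurableEmbedding (fun w : ℂ => w + tau0) := measurableEmbedding_addRight tau0
    have h2 := (mp_shift a tau0 tau0_re).integral_comp hemb
      (fun w => (F J w - (Real.exp (-(PhiJ a A s p J w)) : ℂ) * G J w) *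
        (starRingEnd ℂ) ((Real.exp (-(PhiJ a A s p J w)) : ℂ) * h (w + -tau0)))
    have h3 : ∫ w, (F J w - (Real.exp (-(PhiJ a A s p J w)) : ℂ) * G J w) *
        (starRingEnd ℂ) ((Real.exp (-(PhiJ a A s p J w)) : ℂ) * h (w + -tau0)) ∂(muS a) = 0 := h0
    rw [h3] at h2
    rw [← h2]
    refine setIntegral_congr_fun (meas_strip a) ?_
    intro w hw
    have hFw : F J (w + tau0) = F (Jn J) w := hFe w hw
    simp only [hPhi', hFw, add_neg_cancel_right]

end Pool.Agent.Helper79.AB
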